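import Mathlib

/-!
# Tree automata with infinitely many fixed points on every set of at least three states

States `f, t₀, t₁`; one child: `f ↦ f`, `t₀, t₁ ↦ t₁`; two children: the parent is `f` or `t₀`, namely
`t₀` exactly when no child is `f` or when the children are `f` and `t₁`. With one or two children with
probability `1/2` each, every law `(1 - θ, θ / 2, θ / 2)` is fixed.
-/

set_option autoImplicit false

namespace Pool.Agent.Results.MP_09543b_pr.InfinitelyMany

/-- The count vector of the states of `m` children. -/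
def count {S : Type} [DecidableEq S] {m : ℕ} (s : Fin m → S) (τ : S) : ℕ :=
  (Finset.univ.filter fun i => s i = τ).card

/-- The automaton distributional map: `Psi A χ x σ` is the probability that `A` of the count vector is
`σ`, when there are `m` children with probability `χ m` and their states are independent with law `x`. -/
noncomputable def Psi {S : Type} [Fintype S] [DecidableEq S] (A : (S → ℕ) → S) (χ : ℕ → ℝ)
    (x : S → ℝ) (σ : S) : ℝ :=
  ∑' m : ℕ, χ m * ∑ s : Fin m → S, if A (count s) = σ then ∏ i, x (s i) else 0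

/-- A child distribution: a probability vector on `ℕ` that charges `{2, 3, …}`. -/
def IsChild (χ : ℕ → ℝ) : Prop := (∀ m, 0 ≤ χ m) ∧ HasSum χ 1 ∧ ∃ m, 2 ≤ m ∧ 0 < χ m

section
variable {S : Type} [Fintype S] [DecidableEq S]

/-- The automaton. -/
def aut (f t0 t1 : S) (n : S → ℕ) : S :=
  if ∑ τ, n τ = 1 then (if n f = 1 then f else t1) else (if n f = 0 ∨ n t1 = 1 then t0 else f)

/-- one or two children -/
noncomputable def chi (m : ℕ) : ℝ := if m = 1 ∨ m = 2 then 1 / 2 else 0

/-- the laws -/
noncomputable def law (f t0 t1 : S) (θ : ℝ) (τ : S) : ℝ :=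
  if τ = f then 1 - θ else if τ = t0 then θ / 2 else if τ = t1 then θ / 2 else 0

theorem sum_law (f t0 t1 : S) (h01 : t0 ≠ t1) (h0 : t0 ≠ f) (h1 : t1 ≠ f) (θ : ℝ) (G : S → ℝ) :
    ∑ τ, law f t0 t1 θ τ * G τ = (1 - θ) * G f + θ / 2 * G t0 + θ / 2 * G t1 := by
  have e : ∀ τ, law f t0 t1 θ τ * G τ = (if τ = f then (1 - θ) * G f else 0)
      + (if τ = t0 then θ / 2 * G t0 else 0) + (if τ = t1 then θ / 2 * G t1 else 0) := by
    intro τ
    unfold law
    by_cases hf : τ = f
    · subst hf; simp [h0.symm, h1.symm]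
    · by_cases ht0 : τ = t0
      · subst ht0; simp [hf, h01]
      · by_cases ht1 : τ = t1
        · subst ht1; simp [hf, ht0]
        · simp [hf, ht0, ht1]
  rw [Finset.sum_congr rfl fun τ _ => e τ, Finset.sum_add_distrib, Finset.sum_add_distrib]
  simp

theorem sum_count {m : ℕ} (s : Fin m → S) : ∑ τ, count s τ = m := by
  unfold count
  rw [← Finset.card_eq_sum_card_fiberwise (f := s) (t := Finset.univ) (fun _ _ => Finset.mem_coe.2 (Finset.mem_univ _))]
  simp

theorem count_one (s : Fin 1 → S) (τ : S) : count s τ = if s 0 = τ then 1 else 0 := by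
  unfold count
  rw [Finset.card_filter, Fin.sum_univ_one]

theorem count_two (s : Fin 2 → S) (τ : S) :
    count s τ = (if s 0 = τ then 1 else 0) + (if s 1 = τ then 1 else 0) := by
  unfold count
  rw [Finset.card_filter, Fin.sum_univ_two]

theorem aut_one (f t0 t1 : S) (s : Fin 1 → S) :
    aut f t0 t1 (count s) = if s 0 = f then f else t1 := by
  unfold aut
  rw [sum_count, if_pos rfl, count_one]
  by_cases h : s 0 = f <;> simp [h]

theorem aut_two (f t0 t1 : S) (s : Fin 2 → S) :
    aut f t0 t1 (count s) = if (if s 0 = f then 1 else 0) + (if s 1 = f then 1 else 0) = 0 ∨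
      (if s 0 = t1 then 1 else 0) + (if s 1 = t1 then 1 else 0) = 1 then t0 else f := by
  unfold aut
  rw [sum_count, if_neg (by norm_num), count_two, count_two]

theorem Psi_chi (A : (S → ℕ) → S) (x : S → ℝ) (σ : S) :
    Psi A chi x σ = 1 / 2 * (∑ a, x a * (if A (count ![a]) = σ then 1 else 0))
      + 1 / 2 * ∑ a, x a * ∑ b, x b * (if A (count ![a, b]) = σ then 1 else 0) := by
  unfold Psi
  rw [tsum_eq_sum (s := {1, 2})]
  · rw [Finset.sum_pair (by norm_num)]
    congr 1
    · have : chi 1 = 1 / 2 := by simp [chi]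
      rw [this]
      congr 1
      rw [← (Equiv.funUnique (Fin 1) S).symm.sum_comp]
      refine Finset.sum_congr rfl fun a _ => ?_
      have : (Equiv.funUnique (Fin 1) S).symm a = ![a] := by
        ext i; fin_cases i; rfl
      rw [this]
      simp
    · have : chi 2 = 1 / 2 := by simp [chi]
      rw [this]
      congr 1
      rw [← (finTwoArrowEquiv S).symm.sum_comp, Fintype.sum_prod_type]
      refine Finset.sum_congr rfl fun a _ => ?_
      rw [Finset.mul_sum]
      refine Finset.sum_congr rfl fun b _ => ?_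
      have : (finTwoArrowEquiv S).symm (a, b) = ![a, b] := rfl
      rw [this]
      simp
  · intro m hm
    simp only [Finset.mem_insert, Finset.mem_singleton] at hm
    simp [chi, hm]

end

/-- For every finite set `S` of at least three states there are an automaton on `S` and a child
distribution whose distributional map has infinitely many fixed points in the simplex. -/
theorem result (S : Type) [Fintype S] [DecidableEq S] (hS : 3 ≤ Fintype.card S) :
    ∃ (A : (S → ℕ) → S) (χ : ℕ → ℝ), IsChild χ ∧
      {x : S → ℝ | x ∈ stdSimplex ℝ S ∧ Psi A χ x = x}.Infinite := by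
  obtain ⟨f, t0, t1, h0, h1, h01⟩ : ∃ f t0 t1 : S, t0 ≠ f ∧ t1 ≠ f ∧ t0 ≠ t1 := by
    obtain ⟨a, b, c, h⟩ := Fintype.two_lt_card_iff.1 (show 2 < Fintype.card S from hS)
    exact ⟨a, b, c, h.1.symm, h.2.1.symm, h.2.2⟩
  refine ⟨aut f t0 t1, chi, ⟨?_, ?_, 2, le_rfl, by simp [chi]⟩, ?_⟩
  · intro m; unfold chi; split_ifs <;> norm_num
  · have : HasSum chi (∑ m ∈ ({1, 2} : Finset ℕ), chi m) := by
      refine hasSum_sum_of_ne_finset_zero fun m hm => ?_
      simp only [Finset.mem_insert, Finset.mem_singleton] at hm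
      simp [chi, hm]
    have e : ∑ m ∈ ({1, 2} : Finset ℕ), chi m = 1 := by
      rw [Finset.sum_pair (by norm_num)]; norm_num [chi]
    rwa [e] at this
  · have hinj : Set.InjOn (law f t0 t1) (Set.Icc (0 : ℝ) 1) := by
      intro θ _ θ' _ hθ
      have := congrFun hθ f
      simp [law] at this
      linarith
    refine ((Set.Icc_infinite (zero_lt_one' ℝ)).image hinj).mono ?_
    rintro _ ⟨θ, ⟨hθ0, hθ1⟩, rfl⟩
    refine ⟨⟨?_, ?_⟩, ?_⟩
    · intro τ; unfold law; split_ifs <;> linarith
    · have := sum_law f t0 t1 h01 h0 h1 θ (fun _ => 1)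
      simp only [mul_one] at this
      rw [this]; ring
    · funext σ
      rw [Psi_chi, sum_law f t0 t1 h01 h0 h1, sum_law f t0 t1 h01 h0 h1,
        sum_law f t0 t1 h01 h0 h1, sum_law f t0 t1 h01 h0 h1, sum_law f t0 t1 h01 h0 h1]
      have a1 : aut f t0 t1 (count ![f]) = f := by simp [aut_one]
      have a2 : aut f t0 t1 (count ![t0]) = t1 := by simp [aut_one, h0]
      have a3 : aut f t0 t1 (count ![t1]) = t1 := by simp [aut_one, h1]
      have b1 : aut f t0 t1 (count ![f, f]) = f := by
        simp [aut_two, h1.symm]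
      have b2 : aut f t0 t1 (count ![f, t0]) = f := by
        simp [aut_two, h1.symm, h0, h01]
      have b3 : aut f t0 t1 (count ![f, t1]) = t0 := by
        simp [aut_two, h1.symm, h1]
      have b4 : aut f t0 t1 (count ![t0, f]) = f := by
        simp [aut_two, h1.symm, h0, h01]
      have b5 : aut f t0 t1 (count ![t0, t0]) = t0 := by
        simp [aut_two, h0]
      have b6 : aut f t0 t1 (count ![t0, t1]) = t0 := by
        simp [aut_two, h0, h1]
      have b7 : aut f t0 t1 (count ![t1, f]) = t0 := by
        simp [aut_two, h1.symm, h1]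
      have b8 : aut f t0 t1 (count ![t1, t0]) = t0 := by
        simp [aut_two, h0, h1]
      have b9 : aut f t0 t1 (count ![t1, t1]) = t0 := by
        simp [aut_two, h1]
      rw [a1, a2, a3, b1, b2, b3, b4, b5, b6, b7, b8, b9]
      unfold law
      by_cases hf : σ = f
      · subst hf; simp [h0, h1]; ring
      · by_cases ht0 : σ = t0
        · subst ht0; simp [Ne.symm hf, hf, h01.symm]; ring
        · by_cases ht1 : σ = t1
          · subst ht1; simp [Ne.symm hf, hf, ht0, Ne.symm ht0]; ring
          · simp [Ne.symm hf, hf, ht0, Ne.symm ht0, ht1, Ne.symm ht1]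

end Pool.Agent.Results.MP_09543b_pr.InfinitelyMany
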